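import Pool.Agent.Helper43.V6.Def
import Pool.Agent.Helper30.VQ.Cir

/-!
# The numbers of crossings on the two sides of a Seifert circle, as numbers of steps
-/

set_option autoImplicit false

namespace Pool.Agent.Helper43.V6

open Finset Pool.Agent.Helper85.Exp Pool.Agent.Helper43.Pln Pool.Agent.Helper59.V8 Pool.Agent.Helper30.VQ

variable {P : Type} [Fintype P]

theorem exists_lt_period (σ : Equiv.Perm P) {e q : P} (h : σ.SameCycle e q) : ∃ k < Function.minimalPeriod σ e, (σ ^ k) e = q := by
  obtain ⟨i, hi⟩ := h.exists_nat_pow_eq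
  refine ⟨i % Function.minimalPeriod σ e, Nat.mod_lt _ (period_pos σ e), ?_⟩
  rw [Equiv.Perm.coe_pow] at hi ⊢
  rw [Function.iterate_mod_minimalPeriod_eq, hi]

theorem pow_inj (σ : Equiv.Perm P) {e : P} {k l : ℕ} (hk : k < Function.minimalPeriod σ e) (hl : l < Function.minimalPeriod σ e)
    (h : (σ ^ k) e = (σ ^ l) e) : k = l := by
  rw [Equiv.Perm.coe_pow, Equiv.Perm.coe_pow] at h
  exact Function.iterate_injOn_Iio_minimalPeriod hk hl h

open Classical in
theorem card_side (G : Sh P) (b : Bool) (p : P) : side G b p = (univ.filter fun q => (seifert G).SameCycle p q ∧ G.lf q = b).card := by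
  unfold side
  rw [Nat.card_eq_fintype_card, Fintype.card_subtype]

/-- Counting the visits on one side as steps. -/
theorem count {G : Sh P} (ho : ∀ i, G.op i ≠ i) (b : Bool) (e : P) :
    ((range (Function.minimalPeriod (seifert G) e)).filter fun k => G.lf (G.nxt (((seifert G) ^ k) e)) = !b).card = side G b e := by
  classical
  rw [card_side]
  have hs : ∀ q, G.lf (seifert G q) = !G.lf (G.nxt q) := fun q => G.lf_op _ (ho _)
  refine Finset.card_bij (fun k _ => ((seifert G) ^ (k + 1)) e) ?_ ?_ ?_
  · intro k hk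
    rw [mem_filter, mem_range] at hk
    rw [mem_filter]
    refine ⟨mem_univ _, ⟨((k + 1 : ℕ) : ℤ), by rw [zpow_natCast]⟩, ?_⟩
    rw [pow_succ', Equiv.Perm.mul_apply, hs, hk.2, Bool.not_not]
  · intro k hk l hl h
    rw [mem_filter, mem_range] at hk hl
    simp only [pow_succ', Equiv.Perm.mul_apply] at h
    exact pow_inj _ hk.1 hl.1 ((seifert G).injective h)
  · intro q hq
    rw [mem_filter] at hq
    have hq1 : (seifert G).SameCycle e ((seifert G).symm q) := hq.2.1.trans ⟨-1, by rw [zpow_neg_one]; rfl⟩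
    obtain ⟨k, hk, hkq⟩ := exists_lt_period (seifert G) hq1
    refine ⟨k, ?_, ?_⟩
    · rw [mem_filter, mem_range]
      refine ⟨hk, ?_⟩
      rw [hkq]
      have h1 := hs ((seifert G).symm q)
      rw [Equiv.apply_symm_apply, hq.2.2] at h1
      rw [h1, Bool.not_not]
    · simp only [pow_succ', Equiv.Perm.mul_apply]
      rw [hkq, Equiv.apply_symm_apply]

/-- Step `e → seifert e` with the crossing on the left side. -/
def lstep (G : Sh P) (e : P) : Bool := G.lf (G.nxt e)

theorem nL_eq {G : Sh P} (ho : ∀ i, G.op i ≠ i) (e : P) : nL (seifert G) (lstep G) e = side G false e := by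
  rw [← count ho false e]
  rfl

theorem nR_eq {G : Sh P} (ho : ∀ i, G.op i ≠ i) (e : P) : nR (seifert G) (lstep G) e = side G true e := by
  rw [← count ho true e]
  rfl

theorem total_eq {G : Sh P} (ho : ∀ i, G.op i ≠ i) (e : P) : total G e = Function.minimalPeriod (seifert G) e := by
  unfold total
  rw [← nL_eq ho, ← nR_eq ho, add_comm, nL_add_nR]

theorem wt_eq {G : Sh P} (ho : ∀ i, G.op i ≠ i) (α : ℝ) (e : P) : wt α (seifert G) (lstep G) e = weight α G e := by
  unfold wt weight bet
  rw [nL_eq ho, nR_eq ho, total_eq ho, mul_comm (side G false e : ℝ)]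

end Pool.Agent.Helper43.V6
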