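import Pool.Agent.Helper43.V6.Table
import Pool.Agent.Helper59.V8.Cyc

/-!
# Upper bounds for `cot (π / n)` from the regular polygon
-/

set_option autoImplicit false

namespace Pool.Agent.Helper43.V6

/-- The regular polygon shows that the constant cannot be smaller than `cot (π / n) / 2`. -/
theorem Poly.cot_le {n : ℕ} (hn : 2 ≤ n) {k : ℝ} (h : Poly n k) : Real.cos (Real.pi / n) / Real.sin (Real.pi / n) / 2 ≤ k := by
  have hpi := Real.pi_pos
  have hn0 : (0 : ℝ) < n := by exact_mod_cast (by omega : 0 < n)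
  set φ : ℝ := Real.pi / n with hφ
  have hφ0 : 0 < φ := div_pos hpi hn0
  have hφn : (n : ℝ) * φ = Real.pi := by
    rw [hφ]
    field_simp
  have hn2 : (2 : ℝ) ≤ n := by exact_mod_cast hn
  have hφ1 : φ < Real.pi := by nlinarith
  have hs : 0 < Real.sin φ := Real.sin_pos_of_pos_of_lt_pi hφ0 hφ1
  have h1 := h (fun i : ℕ => ⟨Real.cos (2 * (i * φ)), Real.sin (2 * (i * φ))⟩) (by
    simp only [hφn, Nat.cast_zero, zero_mul, mul_zero, Real.cos_zero, Real.sin_zero, Real.cos_two_pi, Real.sin_two_pi])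
  have e1 : ∀ i ∈ Finset.range n, ar ⟨Real.cos (2 * ((i : ℕ) * φ)), Real.sin (2 * (i * φ))⟩
      ⟨Real.cos (2 * ((i + 1 : ℕ) * φ)), Real.sin (2 * ((i + 1 : ℕ) * φ))⟩ = 2 * Real.sin φ * Real.cos φ := by
    intro i _
    show Real.cos (2 * ((i : ℕ) * φ)) * Real.sin (2 * ((i + 1 : ℕ) * φ)) - Real.sin (2 * (i * φ)) * Real.cos (2 * ((i + 1 : ℕ) * φ)) = _
    have e3 : 2 * (((i + 1 : ℕ) : ℝ) * φ) = 2 * (i * φ) + 2 * φ := by
      push_cast
      ring
    rw [e3, ← Real.sin_two_mul, Real.sin_add, Real.cos_add]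
    linear_combination (Real.sin (2 * φ)) * Real.cos_sq_add_sin_sq (2 * (i * φ))
  have e2 : ∀ i ∈ Finset.range n, sq2 ((⟨Real.cos (2 * ((i + 1 : ℕ) * φ)), Real.sin (2 * ((i + 1 : ℕ) * φ))⟩ : ℂ) -
      ⟨Real.cos (2 * ((i : ℕ) * φ)), Real.sin (2 * (i * φ))⟩) = 4 * Real.sin φ ^ 2 := by
    intro i _
    show (Real.cos (2 * ((i + 1 : ℕ) * φ)) - Real.cos (2 * ((i : ℕ) * φ))) ^ 2 + (Real.sin (2 * ((i + 1 : ℕ) * φ)) - Real.sin (2 * (i * φ))) ^ 2 = _
    have e3 : 2 * (((i + 1 : ℕ) : ℝ) * φ) = 2 * (i * φ) + 2 * φ := by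
      push_cast
      ring
    have e4 : Real.cos (2 * φ) = 1 - 2 * Real.sin φ ^ 2 := by
      rw [Real.cos_two_mul]
      linear_combination 2 * Real.cos_sq_add_sin_sq φ
    have e5 := Real.cos_sq_add_sin_sq (2 * (i * φ))
    have e6 := Real.cos_sq_add_sin_sq (2 * φ)
    rw [e3, Real.sin_add, Real.cos_add]
    linear_combination (Real.cos (2 * φ) ^ 2 + Real.sin (2 * φ) ^ 2 + 1 - 2 * Real.cos (2 * φ)) * e5 + e6 - 2 * e4
  rw [Finset.sum_congr rfl e1, Finset.sum_congr rfl e2, Finset.sum_const, Finset.sum_const, Finset.card_range, nsmul_eq_mul, nsmul_eq_mul] at h1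
  have h2 := (le_abs_self _).trans h1
  rw [div_div, div_le_iff₀ (by positivity)]
  have h3 : (n : ℝ) * (2 * Real.sin φ) * Real.cos φ ≤ (n : ℝ) * (2 * Real.sin φ) * (k * (Real.sin φ * 2)) := by linarith
  exact le_of_mul_le_mul_left h3 (by positivity)

/-- `cot (π / n) ≤ (33 n - 20) / 100` for `1 ≤ n ≤ 16`. -/
theorem cot_le_K {n : ℕ} (hn : n ≤ 16) (h0 : 1 ≤ n) :
    Real.cos (Real.pi / n) / Real.sin (Real.pi / n) / 2 ≤ (33 * (n : ℝ) - 20) / 200 := by
  rcases Nat.lt_or_ge n 2 with h2 | h2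
  · have h3 : n = 1 := by omega
    subst h3
    rw [Nat.cast_one, div_one, Real.sin_pi, div_zero]
    norm_num
  · exact (poly_K hn h0).cot_le h2

open Pool.Agent.Helper59.V8

theorem bet_le_K {n : ℕ} (hn : n ≤ 16) (h0 : 1 ≤ n) : bet n ≤ (33 * (n : ℝ) - 20) / 200 := by
  unfold bet
  rw [Real.cot_eq_cos_div_sin]
  exact cot_le_K hn h0

/-- `cot (π / n) / 2 ≤ n / 6 - 1 / 8` for `1 ≤ n ≤ 16`. -/
theorem bet_le {n : ℕ} (h0 : 1 ≤ n) (hn : n ≤ 16) : bet n ≤ (n : ℝ) / 6 - 1 / 8 := by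
  unfold bet
  rw [Real.cot_eq_cos_div_sin]
  rcases Nat.lt_or_ge n 2 with h2 | h2
  · have h3 : n = 1 := by omega
    subst h3
    rw [Nat.cast_one, div_one, Real.sin_pi, div_zero]
    norm_num
  · exact (poly_K2 hn h0).cot_le h2

theorem lt_sqrt3 : (1.73 : ℝ) < √3 := by
  rw [Real.lt_sqrt (by norm_num)]
  norm_num

/-- Two circles with at most 17 crossings together. -/
theorem bet_pair {n m : ℕ} (hn : 1 ≤ n) (hm : 1 ≤ m) (h : n + m ≤ 17) : bet n + bet m ≤ √3 + 9 / 10 := by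
  have h1 := bet_le_K (n := n) (by omega) hn
  have h2 := bet_le_K (n := m) (by omega) hm
  have h3 := lt_sqrt3
  have h4 : (n : ℝ) + m ≤ 17 := by exact_mod_cast h
  linarith

/-- Two circles with `l r ≤ 12` for both. -/
theorem geo_pair {l r l' r' : ℕ} (h : l * r ≤ 12) (h' : l' * r' ≤ 12) : √((l : ℝ) * r) / 4 + √((l' : ℝ) * r') / 4 ≤ √3 := by
  have key : ∀ a b : ℕ, a * b ≤ 12 → √((a : ℝ) * b) ≤ 2 * √3 := by
    intro a b hab
    rw [show (2 : ℝ) * √3 = √(2 ^ 2 * 3) by rw [Real.sqrt_mul (by norm_num), Real.sqrt_sq (by norm_num)]]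
    apply Real.sqrt_le_sqrt
    have h1 : ((a * b : ℕ) : ℝ) ≤ 12 := by exact_mod_cast hab
    push_cast at h1
    linarith
  have h1 := key l r h
  have h2 := key l' r' h'
  linarith

/-- Two circles with at most 13 crossings together, where a circle with crossings on one side only is not counted. -/
theorem geo_pair13 {l r l' r' : ℕ} (h : (if l * r = 0 then 0 else l + r) + (if l' * r' = 0 then 0 else l' + r') ≤ 13) :
    √((l : ℝ) * r) / 4 + √((l' : ℝ) * r') / 4 ≤ √3 := by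
  have key : ∀ a b : ℕ, √((a : ℝ) * b) ≤ ((if a * b = 0 then 0 else a + b : ℕ) : ℝ) / 2 := by
    intro a b
    split_ifs with hab
    · have h1 : (a : ℝ) * b = 0 := by exact_mod_cast hab
      rw [h1]
      simp
    · rw [Real.sqrt_le_left (by positivity)]
      push_cast
      nlinarith [sq_nonneg ((a : ℝ) - b)]
  have h1 := key l r
  have h2 := key l' r'
  have h3 := lt_sqrt3
  have h4 : (((if l * r = 0 then 0 else l + r) + (if l' * r' = 0 then 0 else l' + r') : ℕ) : ℝ) ≤ 13 := by exact_mod_cast h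
  rw [Nat.cast_add] at h4
  linarith

end Pool.Agent.Helper43.V6
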