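import Pool.Agent.Helper43.V6.Def

/-!
# Triples of consecutive parallel crossings
-/

set_option autoImplicit false

namespace Pool.Agent.Helper43.V6

open Pool.Agent.Helper85.Exp Pool.Agent.Helper43.Pln

variable {P : Type}

/-- Both strands of the crossing of the passage `p` meet each other again at their next crossing, and the strand of `op p` has changed its side. -/
def Twin (G : Sh P) (p : P) : Prop := G.op (G.nxt p) = G.nxt (G.op p) ∧ G.lf (G.nxt p) = !G.lf p

/-- Three consecutive crossings of the same two parallel strands, the first one at the passage `p`. -/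
def Triple (G : Sh P) (p : P) : Prop := Twin G p ∧ Twin G (G.nxt p)

/-- `q` is one of the six passages of the triple that starts at `p`. -/
def InTriple (G : Sh P) (p q : P) : Prop :=
  q = p ∨ q = G.nxt p ∨ q = G.nxt (G.nxt p) ∨ q = G.op p ∨ q = G.op (G.nxt p) ∨ q = G.op (G.nxt (G.nxt p))

/-- `T` is a set of pairwise disjoint triples. -/
def Triples (G : Sh P) (T : Finset P) : Prop :=
  (∀ p ∈ T, Triple G p) ∧ ∀ p ∈ T, ∀ p' ∈ T, ∀ q, InTriple G p q → InTriple G p' q → p = p'

end Pool.Agent.Helper43.V6
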