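import Pool.Agent.Helper43.PD.Plane

/-!
# The weights of the Seifert circles

At the crossing of the passages `p` and `op p` the two Seifert circles leave along the edges `p` and `op p`. A visit `q` of a Seifert circle to a crossing is named after
the edge `q` on which it leaves; if `lf q = true` the crossing is on the right side of the circle, otherwise on the left side.
-/

set_option autoImplicit false

namespace Pool.Agent.Helper43.V6

open Pool.Agent.Helper85.Exp Pool.Agent.Helper43.Pln

variable {P : Type}

/-- The number of crossings on the right side (`b = true`) or on the left side (`b = false`) of the Seifert circle that contains the edge `p`. -/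
noncomputable def side (G : Sh P) (b : Bool) (p : P) : ℕ := Nat.card {q : P // (seifert G).SameCycle p q ∧ G.lf q = b}

/-- The number of crossings on the Seifert circle that contains the edge `p`. -/
noncomputable def total (G : Sh P) (p : P) : ℕ := side G true p + side G false p

/-- The weight of the Seifert circle that contains the edge `p`. -/
noncomputable def weight (α : ℝ) (G : Sh P) (p : P) : ℝ :=
  α * (Real.cot (Real.pi / total G p) / 2) + (1 - α) * (√(side G true p * side G false p) / 4)

end Pool.Agent.Helper43.V6
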