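import Mathlib

/-!
# The isoperimetric inequality for closed polygons and for the cycles of a permutation

`ar z w` is twice the oriented area of the triangle `0, z, w`. For a closed polygon with `n` vertices `|∑ ar| ≤ (1/2) cot (π/n) ∑ |Δ|²`.
-/

set_option autoImplicit false

namespace Pool.Agent.Helper43.V6

/-- Twice the oriented area of the triangle `0, z, w`. -/
def ar (z w : ℂ) : ℝ := z.re * w.im - z.im * w.re

/-- The square of the length. -/
def sq2 (z : ℂ) : ℝ := z.re ^ 2 + z.im ^ 2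

theorem sq2_nonneg (z : ℂ) : 0 ≤ sq2 z := by
  unfold sq2
  positivity

/-- One step. -/
theorem step {g τ : ℝ} (hg : 0 < g) (z w : ℂ) :
    (2 - (1 + τ ^ 2) / g - 1) * sq2 w ≤ (g - 1) * sq2 z + sq2 (w - z) - 2 * τ * ar z w := by
  have h : (g - 1) * sq2 z + sq2 (w - z) - 2 * τ * ar z w - (2 - (1 + τ ^ 2) / g - 1) * sq2 w =
      ((g * z.re - w.re - τ * w.im) ^ 2 + (g * z.im - w.im + τ * w.re) ^ 2) / g := by
    unfold sq2 ar
    rw [Complex.sub_re, Complex.sub_im]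
    field_simp
    ring
  have h2 : 0 ≤ ((g * z.re - w.re - τ * w.im) ^ 2 + (g * z.im - w.im + τ * w.re) ^ 2) / g := by positivity
  linarith

/-- The lower bound for open polygons starting at `0`. -/
theorem open_poly {τ : ℝ} (g : ℕ → ℝ) (h0 : g 0 ≤ 2) (z : ℕ → ℂ) (hz : z 0 = 0) :
    ∀ j : ℕ, (∀ i < j, 0 < g i ∧ g (i + 1) ≤ 2 - (1 + τ ^ 2) / g i) →
      (g j - 1) * sq2 (z (j + 1)) ≤ ∑ i ∈ Finset.range (j + 1), (sq2 (z (i + 1) - z i) - 2 * τ * ar (z i) (z (i + 1))) := by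
  intro j
  induction j with
  | zero =>
    intro _
    rw [Finset.sum_range_one, hz, sub_zero]
    have h1 : ar 0 (z (0 + 1)) = 0 := by simp [ar]
    rw [h1]
    have h2 := sq2_nonneg (z (0 + 1))
    nlinarith
  | succ j ih =>
    intro hj
    rw [Finset.sum_range_succ]
    have h1 := ih fun i hi => hj i (by omega)
    obtain ⟨h2, h3⟩ := hj j (by omega)
    have h4 := step (τ := τ) h2 (z (j + 1)) (z (j + 1 + 1))
    have h5 : (g (j + 1) - 1) * sq2 (z (j + 1 + 1)) ≤ (2 - (1 + τ ^ 2) / g j - 1) * sq2 (z (j + 1 + 1)) :=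
      mul_le_mul_of_nonneg_right (by linarith) (sq2_nonneg _)
    linarith

/-- `Poly n k`: the inequality with the constant `k` for all closed polygons with `n` vertices. -/
def Poly (n : ℕ) (k : ℝ) : Prop :=
  ∀ h : ℕ → ℂ, h n = h 0 → |∑ i ∈ Finset.range n, ar (h i) (h (i + 1))| ≤ k * ∑ i ∈ Finset.range n, sq2 (h (i + 1) - h i)

theorem Poly.mono {n : ℕ} {k k' : ℝ} (h : Poly n k) (hk : k ≤ k') : Poly n k' := fun f hf =>
  (h f hf).trans (mul_le_mul_of_nonneg_right hk (Finset.sum_nonneg fun _ _ => sq2_nonneg _))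

theorem ar_shift (a z w : ℂ) : ar (z + a) (w + a) = ar z w + (ar a w - ar a z) := by
  unfold ar
  simp only [Complex.add_re, Complex.add_im]
  ring

theorem poly_half {n : ℕ} {τ : ℝ} (g : ℕ → ℝ) (h0 : g 0 ≤ 2) (hg : ∀ i < n, 0 < g i ∧ g (i + 1) ≤ 2 - (1 + τ ^ 2) / g i) (hn : 0 ≤ g n)
    (h : ℕ → ℂ) (hh : h (n + 2) = h 0) :
    2 * τ * ∑ i ∈ Finset.range (n + 2), ar (h i) (h (i + 1)) ≤ ∑ i ∈ Finset.range (n + 2), sq2 (h (i + 1) - h i) := by
  set z : ℕ → ℂ := fun i => h i - h 0 with hzdef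
  have hz0 : z 0 = 0 := sub_self _
  have hzn : z (n + 2) = 0 := by
    rw [hzdef]
    simp only [hh, sub_self]
  have e1 : ∀ i, h i = z i + h 0 := fun i => (sub_add_cancel _ _).symm
  have e2 : ∑ i ∈ Finset.range (n + 2), ar (h i) (h (i + 1)) = ∑ i ∈ Finset.range (n + 2), ar (z i) (z (i + 1)) := by
    have h1 : ∀ i ∈ Finset.range (n + 2), ar (h i) (h (i + 1)) = ar (z i) (z (i + 1)) + (ar (h 0) (z (i + 1)) - ar (h 0) (z i)) := by
      intro i _
      conv_lhs => rw [e1 i, e1 (i + 1)]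
      exact ar_shift _ _ _
    rw [Finset.sum_congr rfl h1, Finset.sum_add_distrib, Finset.sum_range_sub fun i => ar (h 0) (z i), hz0, hzn, sub_self, add_zero]
  have e3 : ∀ i, h (i + 1) - h i = z (i + 1) - z i := fun i => by
    rw [hzdef]
    simp only
    ring
  rw [e2]
  simp only [e3]
  have h2 := open_poly (τ := τ) g h0 z hz0 n hg
  rw [Finset.sum_range_succ _ (n + 1), Finset.sum_range_succ _ (n + 1), hzn]
  rw [Finset.sum_sub_distrib, ← Finset.mul_sum] at h2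
  have h3 : ar (z (n + 1)) 0 = 0 := by simp [ar]
  have h4 : sq2 (0 - z (n + 1)) = sq2 (z (n + 1)) := by simp [sq2]
  rw [h3, h4]
  have h5 := mul_nonneg hn (sq2_nonneg (z (n + 1)))
  linarith

/-- The inequality from a certificate. -/
theorem poly_of {n : ℕ} {τ : ℝ} (hτ : 0 < τ) (g : ℕ → ℝ) (h0 : g 0 ≤ 2) (hg : ∀ i < n, 0 < g i ∧ g (i + 1) ≤ 2 - (1 + τ ^ 2) / g i)
    (hn : 0 ≤ g n) : Poly (n + 2) (1 / (2 * τ)) := by
  intro h hh
  have h1 := poly_half g h0 hg hn h hh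
  have h2 := poly_half (τ := τ) g h0 hg hn (fun i => (starRingEnd ℂ) (h i)) (by simp only [hh])
  have h3 : ∀ z w : ℂ, ar ((starRingEnd ℂ) z) ((starRingEnd ℂ) w) = - ar z w := by
    intro z w
    simp only [ar, Complex.conj_re, Complex.conj_im]
    ring
  have h4 : ∀ z w : ℂ, sq2 ((starRingEnd ℂ) z - (starRingEnd ℂ) w) = sq2 (z - w) := by
    intro z w
    simp only [sq2, Complex.sub_re, Complex.sub_im, Complex.conj_re, Complex.conj_im]
    ring
  simp only [h3, h4, Finset.sum_neg_distrib] at h2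
  rw [div_mul_eq_mul_div, one_mul, le_div_iff₀ (by linarith), ← abs_of_pos (show (0 : ℝ) < 2 * τ by linarith), ← abs_mul, abs_le]
  constructor <;> linarith

theorem poly_one (k : ℝ) (hk : 0 ≤ k) : Poly 1 k := by
  intro h hh
  rw [Finset.sum_range_one, Finset.sum_range_one]
  have h1 : h (0 + 1) = h 0 := hh
  rw [h1]
  have h2 : ar (h 0) (h 0) = 0 := by
    unfold ar
    ring
  rw [h2, abs_zero]
  exact mul_nonneg hk (sq2_nonneg _)

theorem poly_zero (k : ℝ) : Poly 0 k := by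
  intro h _
  simp

theorem poly_two (k : ℝ) (hk : 0 ≤ k) : Poly 2 k := by
  intro h hh
  rw [Finset.sum_range_succ, Finset.sum_range_one]
  have h1 : h (1 + 1) = h 0 := hh
  rw [h1]
  have h2 : ar (h 0) (h (0 + 1)) + ar (h 1) (h 0) = 0 := by
    unfold ar
    ring
  rw [h2, abs_zero]
  exact mul_nonneg hk (Finset.sum_nonneg fun _ _ => sq2_nonneg _)

/-- The exact constant. -/
theorem poly_cot {n : ℕ} (hn : 3 ≤ n) : Poly n (1 / (2 * Real.tan (Real.pi / n))) := by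
  obtain ⟨m, rfl⟩ : ∃ m, n = m + 2 := ⟨n - 2, by omega⟩
  set φ : ℝ := Real.pi / ((m + 2 : ℕ) : ℝ) with hφ
  have hpi := Real.pi_pos
  have hm : (0 : ℝ) < ((m + 2 : ℕ) : ℝ) := by positivity
  have hφ0 : 0 < φ := div_pos hpi hm
  have hφn : ((m + 2 : ℕ) : ℝ) * φ = Real.pi := by
    rw [hφ]
    field_simp
  have hm3 : (3 : ℝ) ≤ ((m + 2 : ℕ) : ℝ) := by exact_mod_cast hn
  have hφ2 : φ < Real.pi / 2 := by nlinarith
  have hcos : 0 < Real.cos φ := Real.cos_pos_of_mem_Ioo ⟨by linarith, hφ2⟩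
  have htan : 0 < Real.tan φ := Real.tan_pos_of_pos_of_lt_pi_div_two hφ0 hφ2
  have hsin : ∀ j : ℕ, 1 ≤ j → j ≤ m + 1 → 0 < Real.sin (j * φ) := by
    intro j h1 h2
    apply Real.sin_pos_of_pos_of_lt_pi
    · have : (0 : ℝ) < j := by exact_mod_cast h1
      positivity
    · rw [← hφn]
      have h3 : (j : ℝ) < ((m + 2 : ℕ) : ℝ) := by exact_mod_cast (by omega : j < m + 2)
      exact mul_lt_mul_of_pos_right h3 hφ0
  have hsec : 1 + Real.tan φ ^ 2 = 1 / Real.cos φ ^ 2 := by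
    rw [Real.tan_eq_sin_div_cos]
    field_simp
    rw [Real.cos_sq_add_sin_sq]
  refine poly_of htan (fun j => Real.sin ((j + 2 : ℕ) * φ) / (Real.cos φ * Real.sin ((j + 1 : ℕ) * φ))) ?_ (fun i hi => ?_) ?_
  · show Real.sin ((0 + 2 : ℕ) * φ) / (Real.cos φ * Real.sin ((0 + 1 : ℕ) * φ)) ≤ 2
    have h1 := hsin 1 le_rfl (by omega)
    have e1 : ((0 + 1 : ℕ) : ℝ) * φ = φ := by push_cast; ring
    have e2 : ((0 + 2 : ℕ) : ℝ) * φ = 2 * φ := by push_cast; ring
    rw [Nat.cast_one, one_mul] at h1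
    rw [e1, e2, Real.sin_two_mul]
    apply le_of_eq
    field_simp
  · have h1 := hsin (i + 1) (by omega) (by omega)
    have h2 := hsin (i + 2) (by omega) (by omega)
    refine ⟨by positivity, ?_⟩
    show Real.sin ((i + 1 + 2 : ℕ) * φ) / (Real.cos φ * Real.sin ((i + 1 + 1 : ℕ) * φ)) ≤
      2 - (1 + Real.tan φ ^ 2) / (Real.sin ((i + 2 : ℕ) * φ) / (Real.cos φ * Real.sin ((i + 1 : ℕ) * φ)))
    have e0 : Real.sin ((i + 1 + 2 : ℕ) * φ) + Real.sin ((i + 1 : ℕ) * φ) = 2 * Real.cos φ * Real.sin ((i + 2 : ℕ) * φ) := by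
      have e3 : ((i + 1 + 2 : ℕ) : ℝ) * φ = ((i + 2 : ℕ) : ℝ) * φ + φ := by push_cast; ring
      have e4 : ((i + 1 : ℕ) : ℝ) * φ = ((i + 2 : ℕ) : ℝ) * φ - φ := by push_cast; ring
      rw [e3, e4, Real.sin_add, Real.sin_sub]
      ring
    have e5 : ((i + 1 + 1 : ℕ) : ℝ) = ((i + 2 : ℕ) : ℝ) := by push_cast; ring
    rw [hsec, e5]
    have key : ∀ a b c d : ℝ, 0 < a → 0 < b → 0 < c → d + a = 2 * c * b → d / (c * b) = 2 - 1 / c ^ 2 / (b / (c * a)) := by
      intro a b c d ha hb hc hd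
      have hd' : d = 2 * c * b - a := by linarith
      rw [hd']
      field_simp
    exact le_of_eq (key _ _ _ _ h1 h2 hcos e0)
  · show 0 ≤ Real.sin ((m + 2 : ℕ) * φ) / (Real.cos φ * Real.sin ((m + 1 : ℕ) * φ))
    rw [hφn, Real.sin_pi, zero_div]

end Pool.Agent.Helper43.V6
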