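import Pool.Agent.Helper43.V6.Poly

/-!
# Rational constants for polygons with at most 16 vertices
-/

set_option autoImplicit false

namespace Pool.Agent.Helper43.V6

/-- The recursion `g ↦ 2 - a / g`, starting at `2`. -/
def gq (a : ℚ) : ℕ → ℚ
  | 0 => 2
  | j + 1 => 2 - a / gq a j

theorem poly_rat {n : ℕ} (k : ℚ) (hk : 0 < k) (h : ∀ i < n, 0 < gq (1 + (1 / (2 * k)) ^ 2) i) (hn : 0 ≤ gq (1 + (1 / (2 * k)) ^ 2) n) :
    Poly (n + 2) (k : ℝ) := by
  have hk' : (0 : ℝ) < (k : ℝ) := by exact_mod_cast hk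
  have h1 := poly_of (n := n) (τ := 1 / (2 * (k : ℝ))) (by positivity) (fun i => ((gq (1 + (1 / (2 * k)) ^ 2) i : ℚ) : ℝ)) ?_ ?_ ?_
  · have e : 1 / (2 * (1 / (2 * (k : ℝ)))) = (k : ℝ) := by
      field_simp
    rwa [e] at h1
  · show ((2 : ℚ) : ℝ) ≤ 2
    norm_num
  · intro i hi
    have h2 := h i hi
    refine ⟨?_, ?_⟩
    · show (0 : ℝ) < ((gq (1 + (1 / (2 * k)) ^ 2) i : ℚ) : ℝ)
      exact_mod_cast h2
    · show ((2 - (1 + (1 / (2 * k)) ^ 2) / gq (1 + (1 / (2 * k)) ^ 2) i : ℚ) : ℝ) ≤ _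
      push_cast
      exact le_rfl
  · show (0 : ℝ) ≤ ((gq (1 + (1 / (2 * k)) ^ 2) n : ℚ) : ℝ)
    exact_mod_cast hn

/-- The constants `(33 n - 20) / 200` for `n ≤ 16`. -/
theorem poly_K {n : ℕ} (hn : n ≤ 16) (h0 : 1 ≤ n) : Poly n ((33 * (n : ℝ) - 20) / 200) := by
  rcases Nat.lt_or_ge n 3 with h3 | h3
  · interval_cases n
    · exact poly_one _ (by norm_num)
    · exact poly_two _ (by norm_num)
  · obtain ⟨m, rfl⟩ : ∃ m, n = m + 2 := ⟨n - 2, by omega⟩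
    have e : ((33 * (((m + 2 : ℕ) : ℝ)) - 20) / 200) = (((33 * (((m + 2 : ℕ) : ℚ)) - 20) / 200 : ℚ) : ℝ) := by
      push_cast
      ring
    rw [e]
    have hm : m ≤ 14 := by omega
    have hm1 : 1 ≤ m := by omega
    clear e hn h0 h3
    interval_cases m
    all_goals
      refine poly_rat _ (by norm_num) (fun i hi => ?_) ?_
      · interval_cases i <;> norm_num [gq]
      · norm_num [gq]

/-- The constants `n / 6 - 1 / 8` for `n ≤ 16`. -/
theorem poly_K2 {n : ℕ} (hn : n ≤ 16) (h0 : 1 ≤ n) : Poly n ((n : ℝ) / 6 - 1 / 8) := by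
  rcases Nat.lt_or_ge n 3 with h3 | h3
  · interval_cases n
    · exact poly_one _ (by norm_num)
    · exact poly_two _ (by norm_num)
  · obtain ⟨m, rfl⟩ : ∃ m, n = m + 2 := ⟨n - 2, by omega⟩
    have e : (((m + 2 : ℕ) : ℝ) / 6 - 1 / 8) = ((((m + 2 : ℕ) : ℚ) / 6 - 1 / 8 : ℚ) : ℝ) := by
      push_cast
      ring
    rw [e]
    have hm : m ≤ 14 := by omega
    have hm1 : 1 ≤ m := by omega
    clear e hn h0 h3
    interval_cases m
    all_goals
      refine poly_rat _ (by norm_num) (fun i hi => ?_) ?_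
      · interval_cases i <;> norm_num [gq]
      · norm_num [gq]

end Pool.Agent.Helper43.V6
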